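import Pool.Agent.N922.PZ.Stm
import Pool.Agent.Y723.HJ.Cls

/-!
# PZ/REA: the real points whose classes are divisible by two (helper574)
-/

set_option autoImplicit false
set_option linter.all false

open Polynomial Ideal

namespace Pool.Agent.N574.PZ

open Pool.Agent.Y723.HJ

/-- The real points whose classes are divisible by two. -/
theorem rea_aux (f : ℝ[X]) [HF f] (x y : ℝ) (d : ClassGroup (CR f)) (hxy : y ^ 2 = f.eval x)
    (hd : d ^ 2 = cl (mi f (X - C x) (C y))) (α : ℝ) (hα : f.eval α = 0) : α ≤ x := by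
  obtain ⟨u0, v0, hu0, huv0, hcl0⟩ := exists_cl_mi d
  obtain ⟨u, w, hu, huw, hcl, hne⟩ := moving hu0 huv0 {α} (by
    intro β hβ
    rw [Finset.mem_singleton] at hβ
    rw [hβ]; exact hα)
  have huα : u.eval α ≠ 0 := hne α (Finset.mem_singleton_self α)
  have hcl1 : cl (mi f u w) = d := hcl.trans hcl0
  have hD : mi f u w ≠ ⊥ := mi_ne hu.ne_zero
  have hX : (X - C x : ℝ[X]) ≠ 0 := X_sub_C_ne_zero x
  have hdvd : (X - C x) ∣ f - (C y) ^ 2 := by
    rw [dvd_iff_isRoot, IsRoot.def, eval_sub, eval_pow, eval_C, ← hxy, sub_self]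
  have hP : mi f (X - C x) (C y) ≠ ⊥ := mi_ne hX
  obtain ⟨P, hPd⟩ : ∃ P, P = mi f (X - C x) (C y) := ⟨_, rfl⟩
  rw [← hPd] at hP hd
  obtain ⟨D, hDd⟩ : ∃ D, D = mi f u w := ⟨_, rfl⟩
  rw [← hDd] at hD hcl1
  have hDD : D * D ≠ ⊥ := mul_ne_bot hD hD
  have hI : D * D * bar P ≠ ⊥ := mul_ne_bot hDD (bar_ne hP)
  have hcI : cl (D * D * bar P) = 1 := by
    rw [cl_mul hDD (bar_ne hP), cl_mul hD hD, cl_bar hP, hcl1, ← hd, pow_two, mul_inv_cancel]
  rw [cl_def hI, ClassGroup.mk0_eq_one_iff] at hcI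
  obtain ⟨h, hh⟩ := hcI
  have hh' : D * D * bar P = span {h} := hh
  have hh0 : h ≠ 0 := by
    rintro rfl
    apply hI
    rw [hh', span_singleton_eq_bot]
  have hnm : nm (span {h}) = u * u * (X - C x) := by
    rw [← hh', nm_mul hDD (bar_ne hP), nm_mul hD hD, nm_bar hP, hDd, hPd, nm_mi hu huw,
      nm_mi (monic_X_sub_C x) hdvd]
  obtain ⟨k1, k2⟩ := nm_span hh0
  rw [hnm] at k1 k2
  have hdeg : (u * u * (X - C x)).natDegree = 2 * u.natDegree + 1 := by
    rw [(hu.mul hu).natDegree_mul (monic_X_sub_C x), hu.natDegree_mul hu, natDegree_X_sub_C]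
    ring
  have hodd : Odd h.norm.natDegree := by
    rw [← k2, hdeg]
    exact ⟨_, rfl⟩
  have hl : lead h ≠ 0 := lead_ne hh0
  have e1 := norm_ev hα h
  rw [k1, eval_mul, eval_C, hodd.neg_one_pow, eval_mul, eval_mul, eval_sub, eval_X, eval_C] at e1
  by_contra hcon
  push Not at hcon
  have h1 : 0 < lead h ^ 2 := by positivity
  have h2 : 0 < u.eval α * u.eval α := mul_self_pos.2 huα
  have h3 : 0 < u.eval α * u.eval α * (α - x) := mul_pos h2 (by linarith)
  have h4 : 0 < lead h ^ 2 * (u.eval α * u.eval α * (α - x)) := mul_pos h1 h3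
  have h5 : 0 ≤ ev α h ^ 2 := sq_nonneg _
  nlinarith

theorem rea : Pool.Agent.N922.PZ.S_REA := fun f _ x y d hxy hd α hα => rea_aux f x y d hxy hd α hα

end Pool.Agent.N574.PZ
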